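import Pool.Agent.Helper3_PPX.Stmts

/-! BOX: dimensions of spaces of polynomials with bounded degrees in each variable. -/

set_option autoImplicit false

namespace Pool.Agent.PPX.H63

open MvPolynomial Pool.Agent.PPX

universe u

variable {k : Type u} [Field k] {n : ℕ}

/-- membership in the box -/
theorem mem_box (d : Fin n → ℕ) (p : MvPolynomial (Fin n) k) :
    p ∈ box k d ↔ ∀ v, degreeOf v p ≤ d v := by
  unfold box
  rw [mem_restrictSupport_iff]
  constructor
  · intro h v
    rw [degreeOf_le_iff]
    intro m hm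
    exact h hm v
  · intro h m hm v
    exact degreeOf_le_iff.mp (h v) m hm

/-- the exponents of the box -/
noncomputable def expEquiv (d : Fin n → ℕ) :
    {s : Fin n →₀ ℕ | ∀ v, s v ≤ d v} ≃ ∀ v, Fin (d v + 1) where
  toFun s v := ⟨s.1 v, Nat.lt_succ_of_le (s.2 v)⟩
  invFun f := ⟨Finsupp.equivFunOnFinite.symm fun v => (f v : ℕ), fun v => Nat.le_of_lt_succ (f v).2⟩
  left_inv s := by
    apply Subtype.ext
    ext v
    rfl
  right_inv f := by
    funext v
    rfl

/-- a basis of the box -/
noncomputable def boxBasis (d : Fin n → ℕ) : Module.Basis (∀ v, Fin (d v + 1)) k (box k d) :=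
  (basisRestrictSupport k {s : Fin n →₀ ℕ | ∀ v, s v ≤ d v}).reindex (expEquiv d)

theorem box_finite (d : Fin n → ℕ) : Module.Finite k (box k d) :=
  Module.Finite.of_basis (boxBasis d)

theorem box_finrank (d : Fin n → ℕ) : Module.finrank k (box k d) = ∏ v, (d v + 1) := by
  rw [Module.finrank_eq_card_basis (boxBasis (k := k) d)]
  simp

/-- multiples -/
theorem box_mul (d : Fin n → ℕ) (R : MvPolynomial (Fin n) k) (hR : R ≠ 0)
    (hd : ∀ v, degreeOf v R ≤ d v) (W : Submodule k (MvPolynomial (Fin n) k))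
    (hW : W ≤ box k d) (hdvd : ∀ Q ∈ W, R ∣ Q) :
    Module.finrank k W ≤ ∏ v, (d v + 1 - degreeOf v R) := by
  set e : Fin n → ℕ := fun v => d v - degreeOf v R with he
  have hle : W ≤ (box k e).map (LinearMap.mulLeft k R) := by
    intro Q hQ
    obtain ⟨S, rfl⟩ := hdvd Q hQ
    refine ⟨S, ?_, rfl⟩
    by_cases hS : S = 0
    · rw [hS]
      exact Submodule.zero_mem _
    · show S ∈ box k e
      rw [mem_box]
      intro v
      have h1 := (mem_box d _).mp (hW hQ) v
      rw [degreeOf_mul_eq hR hS] at h1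
      show degreeOf v S ≤ d v - degreeOf v R
      omega
  haveI := box_finite (k := k) e
  have h2 : Module.finrank k W ≤ Module.finrank k ((box k e).map (LinearMap.mulLeft k R)) :=
    Submodule.finrank_mono hle
  have h3 : Module.finrank k ((box k e).map (LinearMap.mulLeft k R)) ≤
      Module.finrank k (box k e) := Submodule.finrank_map_le _ _
  refine h2.trans (h3.trans ?_)
  rw [box_finrank]
  apply le_of_eq
  apply Finset.prod_congr rfl
  intro v _
  have := hd v
  show d v - degreeOf v R + 1 = d v + 1 - degreeOf v R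
  omega

theorem box : BoxStmt.{u} := by
  refine ⟨fun d => ⟨mem_box d, box_finite d, box_finrank d⟩, ?_, ?_⟩
  · intro k _ n d R hR hd W hW hdvd
    exact box_mul d R hR hd W hW hdvd
  · rintro k _ n R Q hQ ⟨S, rfl⟩ v
    have hR : R ≠ 0 := fun h => hQ (by rw [h, zero_mul])
    have hS : S ≠ 0 := fun h => hQ (by rw [h, mul_zero])
    rw [degreeOf_mul_eq hR hS]
    exact Nat.le_add_right _ _

end Pool.Agent.PPX.H63
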